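import Pool.Agent.Y272.GA.Stm

/-!
# Slow curves of polynomials: the passage near the critical value

Adapted from `Pool.Agent.Y434.CA.Pa` by helper434.
-/

set_option autoImplicit false

open Set Filter Metric MeasureTheory

namespace Pool.Agent.Y333.GA

open Pool.Agent.TH279.MD Pool.Agent.Y298.SH Pool.Agent.Y298.SH.CD
open Pool.Agent.Y298.SH.CE (geom_part)
open Pool.Agent.Y272.GA (FF ee Kd PC S_PA)

theorem sum_ee (d : ℕ) (c z : ℂ) : ∑ i : Fin (d + 1), ee d c i * z ^ (i : ℕ) = c := by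
  rw [Finset.sum_eq_single 0]
  · unfold ee
    rw [Pi.single_eq_same]
    simp
  · intro i _ hi
    unfold ee
    rw [Pi.single_eq_of_ne hi, zero_mul]
  · intro h
    exact absurd (Finset.mem_univ _) h

theorem Kd_ge (d : ℕ) : ((d : ℝ) + 1) * (d + 1) * 4 ^ d ≤ Kd d := by
  unfold Kd
  have h1 : (0 : ℝ) ≤ d := Nat.cast_nonneg d
  have h2 : ((d : ℝ) + 1) * (d + 1) ≤ ((d : ℝ) + 1) ^ 3 := by
    nlinarith [mul_nonneg h1 h1, mul_nonneg (mul_nonneg h1 h1) h1]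
  gcongr

theorem FF_sub_le (d : ℕ) (a : Fin (d + 1) → ℂ) (c z : ℂ) (hz : ‖z‖ ≤ 4) :
    ‖FF d a z - (z ^ d + c)‖ ≤ Kd d * ‖a - ee d c‖ := by
  have h1 : FF d a z - (z ^ d + c) = ∑ i : Fin (d + 1), (a i - ee d c i) * z ^ (i : ℕ) := by
    unfold FF
    simp only [sub_mul]
    rw [Finset.sum_sub_distrib, sum_ee]
    ring
  rw [h1]
  have hd : (0 : ℝ) ≤ d := Nat.cast_nonneg d
  calc ‖∑ i : Fin (d + 1), (a i - ee d c i) * z ^ (i : ℕ)‖
      ≤ ∑ i : Fin (d + 1), ‖(a i - ee d c i) * z ^ (i : ℕ)‖ := norm_sum_le _ _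
    _ ≤ ∑ _i : Fin (d + 1), ‖a - ee d c‖ * 4 ^ d := by
        refine Finset.sum_le_sum fun i _ => ?_
        rw [norm_mul, norm_pow]
        have h2 : ‖a i - ee d c i‖ ≤ ‖a - ee d c‖ := norm_le_pi_norm (a - ee d c) i
        have h3 : ‖z‖ ^ (i : ℕ) ≤ 4 ^ d := by
          calc ‖z‖ ^ (i : ℕ) ≤ 4 ^ (i : ℕ) := by gcongr
            _ ≤ 4 ^ d := pow_le_pow_right₀ (by norm_num) (by omega)
        exact mul_le_mul h2 h3 (by positivity) (norm_nonneg _)
    _ = ((d : ℝ) + 1) * 4 ^ d * ‖a - ee d c‖ := by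
        rw [Finset.sum_const, Finset.card_univ, Fintype.card_fin, nsmul_eq_mul]
        push_cast
        ring
    _ ≤ Kd d * ‖a - ee d c‖ := by
        refine mul_le_mul_of_nonneg_right (le_trans ?_ (Kd_ge d)) (norm_nonneg _)
        have h4 : (0 : ℝ) < 4 ^ d := by positivity
        nlinarith [mul_nonneg hd h4.le, mul_nonneg (mul_nonneg hd hd) h4.le]

theorem hasDerivAt_FF (d : ℕ) (a : Fin (d + 1) → ℂ) (z : ℂ) :
    HasDerivAt (FF d a) (d * z ^ (d - 1) +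
      ∑ i : Fin (d + 1), a i * ((i : ℕ) * z ^ ((i : ℕ) - 1))) z := by
  have h1 : HasDerivAt (fun z : ℂ => ∑ i : Fin (d + 1), a i * z ^ (i : ℕ))
      (∑ i : Fin (d + 1), a i * ((i : ℕ) * z ^ ((i : ℕ) - 1))) z :=
    HasDerivAt.fun_sum fun i _ => (hasDerivAt_pow (i : ℕ) z).const_mul (a i)
  exact (hasDerivAt_pow d z).add h1

theorem FF_diff (d : ℕ) (a : Fin (d + 1) → ℂ) : Differentiable ℂ (FF d a) := fun z =>
  (hasDerivAt_FF d a z).differentiableAt

theorem dFF_sub_le (d : ℕ) (a : Fin (d + 1) → ℂ) (c z : ℂ) (hz : ‖z‖ ≤ 4) :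
    ‖deriv (FF d a) z - d * z ^ (d - 1)‖ ≤ Kd d * ‖a - ee d c‖ := by
  rw [(hasDerivAt_FF d a z).deriv, add_sub_cancel_left]
  have hd : (0 : ℝ) ≤ d := Nat.cast_nonneg d
  calc ‖∑ i : Fin (d + 1), a i * ((i : ℕ) * z ^ ((i : ℕ) - 1))‖
      ≤ ∑ i : Fin (d + 1), ‖a i * ((i : ℕ) * z ^ ((i : ℕ) - 1))‖ := norm_sum_le _ _
    _ ≤ ∑ _i : Fin (d + 1), ‖a - ee d c‖ * ((d + 1) * 4 ^ d) := by
        refine Finset.sum_le_sum fun i _ => ?_
        by_cases hi : i = 0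
        · rw [hi]
          simp only [Fin.val_zero, Nat.cast_zero, zero_mul, mul_zero, norm_zero]
          positivity
        rw [norm_mul, norm_mul, norm_pow, Complex.norm_natCast]
        have h2 : ‖a i‖ ≤ ‖a - ee d c‖ := by
          have h3 := norm_le_pi_norm (a - ee d c) i
          have h4 : (a - ee d c) i = a i := by
            rw [Pi.sub_apply]
            unfold ee
            rw [Pi.single_eq_of_ne hi, sub_zero]
          rw [h4] at h3
          exact h3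
        have h3 : ‖z‖ ^ ((i : ℕ) - 1) ≤ 4 ^ d := by
          calc ‖z‖ ^ ((i : ℕ) - 1) ≤ 4 ^ ((i : ℕ) - 1) := by gcongr
            _ ≤ 4 ^ d := pow_le_pow_right₀ (by norm_num) (by omega)
        have h5 : ((i : ℕ) : ℝ) ≤ (d : ℝ) + 1 := by
          have : (i : ℕ) ≤ d + 1 := by omega
          exact_mod_cast this
        exact mul_le_mul h2 (mul_le_mul h5 h3 (by positivity) (by positivity)) (by positivity)
          (norm_nonneg _)
    _ = ((d : ℝ) + 1) * (d + 1) * 4 ^ d * ‖a - ee d c‖ := by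
        rw [Finset.sum_const, Finset.card_univ, Fintype.card_fin, nsmul_eq_mul]
        push_cast
        ring
    _ ≤ Kd d * ‖a - ee d c‖ :=
        mul_le_mul_of_nonneg_right (Kd_ge d) (norm_nonneg _)

theorem deriv_iter_succ {F : ℂ → ℂ} (hF : Differentiable ℂ F) (j : ℕ) (x : ℂ) :
    deriv (F^[j + 1]) x = deriv F (F^[j] x) * deriv (F^[j]) x := by
  rw [Function.iterate_succ', deriv_comp x (hF _) ((hF.iterate j) x)]

theorem pred_mul_le {d : ℕ} {b : ℝ} (hb : 0 ≤ b) : ((d - 1 : ℕ) : ℝ) * b ≤ d * b := by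
  have : d - 1 ≤ d := by omega
  have h : ((d - 1 : ℕ) : ℝ) ≤ d := by exact_mod_cast this
  exact mul_le_mul_of_nonneg_right h hb

theorem norm_u_le {u z : ℂ} {b : ℝ} (h1 : ‖u - z‖ ≤ b * ‖z‖) : ‖u‖ ≤ ‖z‖ * (1 + b) := by
  calc ‖u‖ = ‖(u - z) + z‖ := by congr 1; ring
    _ ≤ ‖u - z‖ + ‖z‖ := norm_add_le _ _
    _ ≤ _ := by linarith

theorem norm_u_le4 {u z : ℂ} {b : ℝ} (hb0 : 0 ≤ b) (hb : b ≤ 1 / 12) (hz : ‖z‖ ≤ 2)
    (h1 : ‖u - z‖ ≤ b * ‖z‖) : ‖u‖ ≤ 4 := by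
  refine (norm_u_le h1).trans ?_
  calc ‖z‖ * (1 + b) ≤ 2 * (1 + 1 / 12) := by gcongr
    _ ≤ 4 := by norm_num

theorem pow_up' {d : ℕ} {b : ℝ} (hb0 : 0 ≤ b) (hdb : d * b ≤ 1 / 6) :
    (1 + b) ^ (d - 1) ≤ 1 + 2 * d * b := by
  have h0 := pred_mul_le (d := d) hb0
  have h5 := pow_up hb0 (n := d - 1) (by linarith)
  linarith

theorem pow_low' {d : ℕ} {b : ℝ} (hb0 : 0 ≤ b) (hb1 : b ≤ 1) :
    1 - 2 * d * b ≤ (1 - b) ^ (d - 1) := by
  have h0 := pred_mul_le (d := d) hb0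
  have h4 := pow_low hb1 (d - 1)
  have h5 : 0 ≤ (d : ℝ) * b := by positivity
  linarith

theorem step_bounds {d : ℕ} (hdR : (2 : ℝ) ≤ d) {D u z : ℂ} {b0 e s : ℝ} (hb0 : 0 < b0)
    (he : 0 < e) (hb12 : b0 + e ≤ 1 / 12) (hdb : d * (b0 + e) ≤ 1 / 6)
    (h1 : ‖u - z‖ ≤ b0 * ‖z‖) (hes : s ≤ 2 * e * (d * ‖z‖ ^ (d - 1)))
    (hFu : ‖D - d * u ^ (d - 1)‖ ≤ s) :
    d * ‖z‖ ^ (d - 1) * (1 - 2 * d * (b0 + e)) ≤ ‖D‖ ∧
      ‖D‖ ≤ d * ‖z‖ ^ (d - 1) * (1 + 2 * d * (b0 + e)) := by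
  have hz0 := norm_nonneg z
  have hum := norm_u_le h1
  have hn : ‖(d : ℂ) * u ^ (d - 1)‖ = d * ‖u‖ ^ (d - 1) := by
    rw [norm_mul, norm_pow, Complex.norm_natCast]
  have hb01 : b0 ≤ 1 := by linarith
  have hd0 : (0 : ℝ) ≤ d := by linarith
  have hde : 0 ≤ d * e := by positivity
  have hdb0 : d * b0 ≤ 1 / 6 := by linarith
  have h2 : ‖z‖ * (1 - b0) ≤ ‖u‖ := by
    have h3 : ‖z‖ ≤ ‖u‖ + ‖u - z‖ := by
      calc ‖z‖ = ‖u - (u - z)‖ := by congr 1; ring
        _ ≤ _ := norm_sub_le _ _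
    linarith
  have h1b : 0 ≤ 1 - b0 := by linarith
  have h3 : ‖z‖ ^ (d - 1) * (1 - 2 * d * b0) ≤ ‖u‖ ^ (d - 1) := by
    have h5 := pow_low' (d := d) hb0.le hb01
    calc ‖z‖ ^ (d - 1) * (1 - 2 * d * b0) ≤ ‖z‖ ^ (d - 1) * (1 - b0) ^ (d - 1) := by gcongr
      _ = (‖z‖ * (1 - b0)) ^ (d - 1) := by rw [mul_pow]
      _ ≤ _ := by gcongr
  have h3' : ‖u‖ ^ (d - 1) ≤ ‖z‖ ^ (d - 1) * (1 + 2 * d * b0) := by
    have h6 := pow_up' (d := d) hb0.le hdb0
    calc ‖u‖ ^ (d - 1) ≤ (‖z‖ * (1 + b0)) ^ (d - 1) := by gcongr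
      _ = ‖z‖ ^ (d - 1) * (1 + b0) ^ (d - 1) := by rw [mul_pow]
      _ ≤ _ := by gcongr
  set W := ‖z‖ ^ (d - 1) with hW
  have hW0 : 0 ≤ W := by positivity
  have hdW : 0 ≤ d * W := by positivity
  have hes2 : s ≤ 2 * d * e * (d * W) := by
    refine hes.trans (mul_le_mul_of_nonneg_right ?_ hdW)
    have : 1 * e ≤ d * e := mul_le_mul_of_nonneg_right (by linarith) he.le
    linarith
  have hlo := mul_le_mul_of_nonneg_left h3 hd0
  have hup := mul_le_mul_of_nonneg_left h3' hd0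
  constructor
  · have h7 : ‖(d : ℂ) * u ^ (d - 1)‖ ≤ ‖D‖ + s := by
      calc ‖(d : ℂ) * u ^ (d - 1)‖ = ‖D - (D - d * u ^ (d - 1))‖ := by
            congr 1; ring
        _ ≤ _ := (norm_sub_le _ _).trans (by linarith)
    rw [hn] at h7
    have h8 : d * W * (1 - 2 * d * (b0 + e)) =
        d * (W * (1 - 2 * d * b0)) - 2 * d * e * (d * W) := by
      ring
    rw [h8]
    linarith
  · have h7 : ‖D‖ ≤ ‖(d : ℂ) * u ^ (d - 1)‖ + s := by
      calc ‖D‖ = ‖(d : ℂ) * u ^ (d - 1) + (D - d * u ^ (d - 1))‖ := by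
            congr 1; ring
        _ ≤ _ := (norm_add_le _ _).trans (by linarith)
    rw [hn] at h7
    have h8 : d * W * (1 + 2 * d * (b0 + e)) =
        d * (W * (1 + 2 * d * b0)) + 2 * d * e * (d * W) := by
      ring
    rw [h8]
    linarith

theorem close_step {d : ℕ} {u z Fu c₀ : ℂ} {b s A P P1 : ℝ} (hb0 : 0 < b)
    (hdb : d * b ≤ 1 / 6) (h1 : ‖u - z‖ ≤ b * ‖z‖)
    (hFu : ‖Fu - (u ^ d + c₀)‖ ≤ s) (hA : ‖u - z‖ ≤ A * P) (hP : P1 = d * ‖z‖ ^ (d - 1) * P) :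
    ‖Fu - (z ^ d + c₀)‖ ≤ A * (1 + 2 * d * b) * P1 + s := by
  have h2 : Fu - (z ^ d + c₀) = (u ^ d - z ^ d) + (Fu - (u ^ d + c₀)) := by ring
  have hz0 := norm_nonneg z
  have hum := norm_u_le h1
  have hzm : ‖z‖ ≤ ‖z‖ * (1 + b) := by
    have : 0 ≤ ‖z‖ * b := by positivity
    linarith
  have h3 := pow_sub_le u z hum hzm d
  have h3' := pow_up' (d := d) hb0.le hdb
  calc ‖Fu - (z ^ d + c₀)‖ ≤ d * (‖z‖ * (1 + b)) ^ (d - 1) * ‖u - z‖ + s := by
        rw [h2]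
        exact (norm_add_le _ _).trans (add_le_add h3 hFu)
    _ ≤ d * (‖z‖ ^ (d - 1) * (1 + 2 * d * b)) * (A * P) + s := by
        rw [mul_pow]
        gcongr
    _ = A * (1 + 2 * d * b) * P1 + s := by
        rw [hP]
        ring

/-- **Passage near the critical value.** -/
theorem t : S_PA := by
  intro d C₁ lam θ hd hC₁ hlam hθ
  have hdR : (2 : ℝ) ≤ d := by exact_mod_cast hd
  have hC0 : 0 < C₁ := by linarith
  set SP : ℝ := C₁ * (1 / (1 - 1 / lam)) with hSP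
  have hl0 : 0 < lam := by linarith
  have hil : 0 < 1 / lam := by positivity
  have hil1 : 1 / lam < 1 := by rw [div_lt_one hl0]; exact hlam
  have hSP0 : 0 < SP := by
    have : 0 < 1 - 1 / lam := by linarith
    positivity
  set Ca : ℝ := 2 * (1 + SP) with hCa
  have hCa1 : 1 ≤ Ca := by rw [hCa]; linarith
  have hCa0 : 0 < Ca := by linarith
  have hiθ : 0 < 1 / θ := by positivity
  have hiθ1 : 1 / θ < 1 := by rw [div_lt_one (by linarith)]; exact hθ
  set Sθ : ℝ := 1 / (1 - 1 / θ) with hSθ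
  have hSθ0 : 0 < Sθ := by
    have : 0 < 1 - 1 / θ := by linarith
    positivity
  set B : ℝ := (Ca + C₁) * (1 + 6 * d * Sθ) + 8 * 2 ^ d * d * C₁ with hB
  have hB0 : 0 < B := by positivity
  have hB1 : (Ca + C₁) * (1 + 6 * d * Sθ) ≤ B := by
    rw [hB]
    have : 0 ≤ 8 * 2 ^ d * (d : ℝ) * C₁ := by positivity
    linarith
  have hB2 : 8 * 2 ^ d * d * C₁ ≤ B := by
    rw [hB]
    have : 0 ≤ (Ca + C₁) * (1 + 6 * d * Sθ) := by positivity
    linarith
  have hθ0 : 0 < θ := by linarith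
  -- the relative error of the derivative
  have herr : ∀ c₀ : ℂ, CEp d C₁ lam c₀ → ∀ (s : ℝ) (k : ℕ), 0 < s →
      (∀ j < k, B * θ ^ j * s * Pd d c₀ j ≤ ‖zz d c₀ j‖) → ∀ j < k,
      s ≤ 2 * (C₁ / (B * θ ^ j)) * (d * ‖zz d c₀ j‖ ^ (d - 1)) := by
    intro c₀ h s k hs hk j hj
    have hPj := h.Pd_pos j
    have h1 := hk j hj
    have h2 := h.bd j
    have h3 := h.exp (j + 1)
    have h4 : 1 ≤ lam ^ (j + 1) := one_le_pow₀ hlam.le
    rw [Pd_succ] at h3
    set z := zz d c₀ j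
    have hBθ : 0 < B * θ ^ j := by positivity
    have h5 : s * Pd d c₀ j * (B * θ ^ j) ≤ 2 * (C₁ * (d * ‖z‖ ^ (d - 1) * Pd d c₀ j)) := by
      calc s * Pd d c₀ j * (B * θ ^ j) = B * θ ^ j * s * Pd d c₀ j := by ring
        _ ≤ ‖z‖ := h1
        _ ≤ 2 * 1 := by linarith
        _ ≤ _ := by linarith
    have h6 : s * (B * θ ^ j) ≤ 2 * (C₁ * (d * ‖z‖ ^ (d - 1))) := by
      refine le_of_mul_le_mul_right ?_ hPj
      calc s * (B * θ ^ j) * Pd d c₀ j = s * Pd d c₀ j * (B * θ ^ j) := by ring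
        _ ≤ _ := h5
        _ = _ := by ring
    have h7 : 2 * (C₁ / (B * θ ^ j)) * (d * ‖z‖ ^ (d - 1)) =
        2 * (C₁ * (d * ‖z‖ ^ (d - 1))) / (B * θ ^ j) := by ring
    rw [h7, le_div_iff₀ hBθ]
    exact h6
  refine ⟨B, Ca, hCa1, ?_, ?_, ?_⟩
  · refine le_trans ?_ hB1
    have : 0 ≤ 6 * d * Sθ := by positivity
    nlinarith
  swap
  · intro c₀ h s k hs hk j hj
    have h1 := herr c₀ h s k hs hk j hj
    have h2 : 1 ≤ θ ^ j := one_le_pow₀ hθ.le
    have h3 : C₁ / (B * θ ^ j) ≤ C₁ / B := by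
      gcongr
      nlinarith
    have h4 : 4 * 2 ^ d * (2 * (C₁ / B) * d) ≤ 1 := by
      have h5 : 4 * 2 ^ d * (2 * (C₁ / B) * d) = 8 * 2 ^ d * d * C₁ / B := by ring
      rw [h5, div_le_one hB0]
      exact hB2
    calc 4 * 2 ^ d * s ≤ 4 * 2 ^ d * (2 * (C₁ / (B * θ ^ j)) * (d * ‖zz d c₀ j‖ ^ (d - 1))) := by
          gcongr
      _ ≤ 4 * 2 ^ d * (2 * (C₁ / B) * (d * ‖zz d c₀ j‖ ^ (d - 1))) := by gcongr
      _ = 4 * 2 ^ d * (2 * (C₁ / B) * d) * ‖zz d c₀ j‖ ^ (d - 1) := by ring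
      _ ≤ 1 * ‖zz d c₀ j‖ ^ (d - 1) := by gcongr
      _ = _ := one_mul _
  intro c₀ h a s k hs ha hk
  have hP := h.Pd_pos
  -- the sequences
  set b0 : ℕ → ℝ := fun i => Ca / (B * θ ^ i) with hb0d
  set e : ℕ → ℝ := fun i => C₁ / (B * θ ^ i) with hed
  set b : ℕ → ℝ := fun i => b0 i + e i with hb
  have hb00 : ∀ i, 0 < b0 i := fun i => by positivity
  have he0 : ∀ i, 0 < e i := fun i => by positivity
  have hb0 : ∀ i, 0 < b i := fun i => add_pos (hb00 i) (he0 i)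
  have hbb : ∀ i, b0 i ≤ b i := fun i => by
    rw [hb]
    have := he0 i
    simp only
    linarith
  have hbs : ∀ n, ∑ i ∈ Finset.range n, 2 * d * b i ≤ 1 / 3 := by
    intro n
    have h1 : ∀ i, 2 * d * b i = 2 * d * ((Ca + C₁) / B) * (1 / θ) ^ i := by
      intro i
      rw [hb, hb0d, hed, one_div, inv_pow]
      field_simp
    simp only [h1]
    rw [← Finset.mul_sum]
    have h2 := geom_part hiθ hiθ1 n
    calc 2 * d * ((Ca + C₁) / B) * ∑ i ∈ Finset.range n, (1 / θ) ^ i ≤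
          2 * d * ((Ca + C₁) / B) * Sθ := by gcongr
      _ = 2 * d * (Ca + C₁) * Sθ / B := by ring
      _ ≤ 1 / 3 := by
          rw [div_le_div_iff₀ hB0 (by norm_num)]
          nlinarith
  have hbd : ∀ j, d * b j ≤ 1 / 6 := by
    intro j
    have h1 := hbs (j + 1)
    rw [Finset.sum_range_succ] at h1
    have h2 : 0 ≤ ∑ i ∈ Finset.range j, 2 * d * b i := Finset.sum_nonneg fun i _ => by
      have := hb0 i; positivity
    linarith
  set E : ℕ → ℝ := fun j => Real.exp (∑ i ∈ Finset.range j, 2 * d * b i) with hE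
  have hE1 : ∀ j, 1 ≤ E j := fun j => Real.one_le_exp (Finset.sum_nonneg fun i _ => by
    have := hb0 i; positivity)
  have hE2 : ∀ j, E j ≤ 2 := by
    intro j
    have h1 : ∑ i ∈ Finset.range j, 2 * d * b i ≤ 1 / 2 := by linarith [hbs j]
    have h2 : Real.exp (1 / 2) ≤ 2 := by
      have h3 := Real.exp_one_lt_d9
      have h5 : Real.exp (1 / 2) ^ 2 = Real.exp 1 := by
        rw [← Real.exp_nat_mul]
        norm_num
      have h6 := Real.exp_pos (1 / 2)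
      nlinarith
    exact (Real.exp_le_exp.mpr h1).trans h2
  have hE3 : ∀ j, E j * (1 + 2 * d * b j) ≤ E (j + 1) := by
    intro j
    rw [hE]
    beta_reduce
    rw [Finset.sum_range_succ, Real.exp_add]
    gcongr
    have := Real.add_one_le_exp (2 * d * b j)
    linarith
  set S : ℕ → ℝ := fun j => ∑ i ∈ Finset.range (j + 1), 1 / Pd d c₀ i with hS
  have hS0 : ∀ j, 0 ≤ S j := fun j => Finset.sum_nonneg fun i _ => by
    have := hP i; positivity
  have hSb : ∀ j, S j ≤ SP := by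
    intro j
    have h1 : ∀ i, 1 / Pd d c₀ i ≤ C₁ * (1 / lam) ^ i := by
      intro i
      have := h.exp i
      have h2 := hP i
      rw [one_div lam, inv_pow, ← div_eq_mul_inv, div_le_div_iff₀ h2 (by positivity)]
      linarith
    calc S j ≤ ∑ i ∈ Finset.range (j + 1), C₁ * (1 / lam) ^ i :=
          Finset.sum_le_sum fun i _ => h1 i
      _ = C₁ * ∑ i ∈ Finset.range (j + 1), (1 / lam) ^ i := by rw [Finset.mul_sum]
      _ ≤ SP := by
          rw [hSP]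
          gcongr
          exact geom_part hil hil1 _
  have hcoef : ∀ j, s * (1 + S j) * E j * Pd d c₀ j ≤ Ca * s * Pd d c₀ j := by
    intro j
    have := hP j
    have h1 : (1 + S j) * E j ≤ (1 + SP) * 2 :=
      mul_le_mul (by linarith [hSb j]) (hE2 j) (by linarith [hE1 j]) (by linarith)
    calc s * (1 + S j) * E j * Pd d c₀ j = s * Pd d c₀ j * ((1 + S j) * E j) := by ring
      _ ≤ s * Pd d c₀ j * ((1 + SP) * 2) := by gcongr
      _ = _ := by rw [hCa]; ring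
  have hdelta0 : ∀ j < k, Ca * s * Pd d c₀ j ≤ b0 j * ‖zz d c₀ j‖ := by
    intro j hj
    have h1 := hk j hj
    rw [hb0d]
    beta_reduce
    rw [div_mul_eq_mul_div, le_div_iff₀ (by positivity)]
    calc Ca * s * Pd d c₀ j * (B * θ ^ j) = Ca * (B * θ ^ j * s * Pd d c₀ j) := by ring
      _ ≤ _ := by gcongr
  have hdelta : ∀ j < k, Ca * s * Pd d c₀ j ≤ b j * ‖zz d c₀ j‖ := fun j hj =>
    (hdelta0 j hj).trans (mul_le_mul_of_nonneg_right (hbb j) (norm_nonneg _))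
  have hd1 : ((d - 1 : ℕ) : ℝ) ≤ d := by
    have : d - 1 ≤ d := by omega
    exact_mod_cast this
  have hb12 : ∀ j, b j ≤ 1 / 12 := by
    intro j
    have h1 := hbd j
    have h2 := hb0 j
    nlinarith
  -- closeness
  have I1 : ∀ x ∈ ball c₀ (2 * s), ∀ j ≤ k,
      ‖(FF d a)^[j] x - zz d c₀ j‖ ≤ s * (1 + S j) * E j * Pd d c₀ j := by
    intro x hx j
    induction j with
    | zero =>
      intro _
      have h1 : S 0 = 1 := by rw [hS]; simp [Pd_zero]
      have h2 : E 0 = 1 := by rw [hE]; simp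
      rw [h1, h2, Pd_zero, Function.iterate_zero, id_eq, zz_zero]
      rw [mem_ball, dist_eq_norm] at hx
      linarith
    | succ j ih =>
      intro hj
      have ih' := ih (by omega)
      have h1 : ‖(FF d a)^[j] x - zz d c₀ j‖ ≤ b j * ‖zz d c₀ j‖ :=
        ih'.trans ((hcoef j).trans (hdelta j (by omega)))
      rw [Function.iterate_succ_apply', zz_succ]
      have hu4 : ‖(FF d a)^[j] x‖ ≤ 4 := norm_u_le4 (hb0 j).le (hb12 j) (h.bd j) h1
      have hFu := (FF_sub_le d a c₀ _ hu4).trans ha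
      have h9 := close_step (d := d) (hb0 j) (hbd j) h1 hFu ih' (Pd_succ d c₀ j)
      have hPj1 := hP (j + 1)
      have hSj := hS0 j
      have h4 : s ≤ s * (1 / Pd d c₀ (j + 1)) * E (j + 1) * Pd d c₀ (j + 1) := by
        have h5 : s * (1 / Pd d c₀ (j + 1)) * E (j + 1) * Pd d c₀ (j + 1) =
            s * E (j + 1) := by
          field_simp
        rw [h5]
        exact le_mul_of_one_le_right hs.le (hE1 (j + 1))
      have h6 := hE3 j
      calc _ ≤ _ := h9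
        _ = s * (1 + S j) * (E j * (1 + 2 * d * b j)) * Pd d c₀ (j + 1) + s := by ring
        _ ≤ s * (1 + S j) * E (j + 1) * Pd d c₀ (j + 1) +
            s * (1 / Pd d c₀ (j + 1)) * E (j + 1) * Pd d c₀ (j + 1) := by
            gcongr
        _ = s * (1 + S (j + 1)) * E (j + 1) * Pd d c₀ (j + 1) := by
            have h7 : S (j + 1) = S j + 1 / Pd d c₀ (j + 1) := by
              rw [hS]
              beta_reduce
              rw [Finset.sum_range_succ]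
            rw [h7]
            ring
  have I1' : ∀ x ∈ ball c₀ (2 * s), ∀ j < k,
      ‖(FF d a)^[j] x - zz d c₀ j‖ ≤ b0 j * ‖zz d c₀ j‖ :=
    fun x hx j hj => (I1 x hx j hj.le).trans ((hcoef j).trans (hdelta0 j hj))
  -- the derivative of one step
  have hstep : ∀ x ∈ ball c₀ (2 * s), ∀ j < k,
      d * ‖zz d c₀ j‖ ^ (d - 1) * (1 - 2 * d * b j) ≤ ‖deriv (FF d a) ((FF d a)^[j] x)‖ ∧
      ‖deriv (FF d a) ((FF d a)^[j] x)‖ ≤ d * ‖zz d c₀ j‖ ^ (d - 1) * (1 + 2 * d * b j) := by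
    intro x hx j hj
    have h1 := I1' x hx j hj
    have hu4 : ‖(FF d a)^[j] x‖ ≤ 4 :=
      norm_u_le4 (hb00 j).le ((hbb j).trans (hb12 j)) (h.bd j) h1
    exact step_bounds hdR (hb00 j) (he0 j) (hb12 j) (hbd j) h1 (herr c₀ h s k hs hk j hj)
      ((dFF_sub_le d a c₀ _ hu4).trans ha)
  have hFd := FF_diff d a
  -- derivatives
  have I2 : ∀ x ∈ ball c₀ (2 * s), ∀ j ≤ k,
      (1 - ∑ i ∈ Finset.range j, 2 * d * b i) * Pd d c₀ j ≤ ‖deriv ((FF d a)^[j]) x‖ := by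
    intro x hx j
    induction j with
    | zero =>
      intro _
      simp [Pd_zero]
    | succ j ih =>
      intro hj
      have ih' := ih (by omega)
      have h1 := (hstep x hx j (by omega)).1
      rw [deriv_iter_succ hFd, norm_mul, Finset.sum_range_succ, Pd_succ]
      have hbj := hb0 j
      have hbdj := hbd j
      have hs1 := hbs (j + 1)
      rw [Finset.sum_range_succ] at hs1
      have hs2 : 0 ≤ ∑ i ∈ Finset.range j, 2 * d * b i := Finset.sum_nonneg fun i _ => by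
        have := hb0 i; positivity
      set SS := ∑ i ∈ Finset.range j, 2 * d * b i
      have hPj := hP j
      have hz0 := norm_nonneg (zz d c₀ j)
      have h4 : 0 ≤ 1 - 2 * d * b j := by linarith
      have h5 : 0 ≤ 1 - SS := by
        have : 0 ≤ 2 * d * b j := by positivity
        linarith
      have h6 : 0 ≤ 2 * d * b j := by positivity
      calc (1 - (SS + 2 * d * b j)) * (d * ‖zz d c₀ j‖ ^ (d - 1) * Pd d c₀ j)
          ≤ ((1 - SS) * (1 - 2 * d * b j)) * (d * ‖zz d c₀ j‖ ^ (d - 1) * Pd d c₀ j) := by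
            gcongr
            nlinarith
        _ = (d * ‖zz d c₀ j‖ ^ (d - 1) * (1 - 2 * d * b j)) * ((1 - SS) * Pd d c₀ j) := by ring
        _ ≤ _ := mul_le_mul h1 ih' (by positivity) (norm_nonneg _)
  -- derivatives, upper bound
  have I2u : ∀ x ∈ ball c₀ (2 * s), ∀ j ≤ k, ‖deriv ((FF d a)^[j]) x‖ ≤ E j * Pd d c₀ j := by
    intro x hx j
    induction j with
    | zero =>
      intro _
      have h2 : E 0 = 1 := by rw [hE]; simp
      rw [h2]
      simp [Pd_zero]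
    | succ j ih =>
      intro hj
      have ih' := ih (by omega)
      have h1 := (hstep x hx j (by omega)).2
      rw [deriv_iter_succ hFd, norm_mul, Pd_succ]
      have hbj := hb0 j
      have hPj := hP j
      have hEj := hE1 j
      have hz0 := norm_nonneg (zz d c₀ j)
      calc ‖deriv (FF d a) ((FF d a)^[j] x)‖ * ‖deriv ((FF d a)^[j]) x‖
          ≤ (d * ‖zz d c₀ j‖ ^ (d - 1) * (1 + 2 * d * b j)) * (E j * Pd d c₀ j) :=
            mul_le_mul h1 ih' (norm_nonneg _) (by positivity)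
        _ = (E j * (1 + 2 * d * b j)) * (d * ‖zz d c₀ j‖ ^ (d - 1) * Pd d c₀ j) := by ring
        _ ≤ E (j + 1) * (d * ‖zz d c₀ j‖ ^ (d - 1) * Pd d c₀ j) := by
            have h6 := hE3 j
            gcongr
  intro x hx j hj
  have hPj := hP j
  refine ⟨(I1 x hx j hj).trans (hcoef j), ?_, ?_, ?_⟩
  · refine le_trans ?_ (I2 x hx j hj)
    have := hbs j
    nlinarith
  · refine (I2u x hx j hj).trans ?_
    have := hE2 j
    nlinarith
  · intro hjk
    refine (I1' x hx j hjk).trans ?_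
    have h1 := hb12 j
    have h2 := hbb j
    exact mul_le_mul_of_nonneg_right (by linarith) (norm_nonneg _)

end Pool.Agent.Y333.GA
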